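import Pool.Agent.Helper14.TK7.StD

/-!
# Project TK (levels 3·7^n), module LIFP: lifting solutions of the relations to the integers
-/

set_option autoImplicit false

namespace Pool.Agent.Helper29.TK7.LifpM

open Pool.Agent.Helper84.S7
open Pool.Agent.Helper14.TK7 (RelK solK DfK TSol TLifp)

private abbrev Pq (r s : ℕ) : Type := ZMod (7 ^ r) × ZMod (7 ^ s)

private def mu {r s : ℕ} (a b c d : ℤ) (p : Pq r s) : Pq r s :=
  tr7 a b c d (fun x y => ((x, y) : Pq r s)) p.1 p.2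

private theorem mu_mul (hTrm : S7Trm) {r s : ℕ} {a b c d a' b' c' d' : ℤ} (h1 : ¬ 7 ∣ a)
    (h2 : ¬ 7 ∣ d) (h3 : ¬ 7 ∣ a') (h4 : ¬ 7 ∣ d') (p : Pq r s) :
    mu a' b' c' d' (mu a b c d p) =
      mu (a * a' + 7 * b * c') (a * b' + b * d') (c * a' + d * c') (7 * c * b' + d * d') p := by
  have h := congrFun (congrFun ((hTrm (Pq r s) r s (fun x y => (x, y))).1 a b c d a' b' c' d'
    h1 h2 h3 h4) p.1) p.2
  exact h

private theorem mu_one (hTrm : S7Trm) {r s : ℕ} (p : Pq r s) : mu 1 0 0 1 p = p := by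
  have h := congrFun (congrFun (hTrm (Pq r s) r s (fun x y => (x, y))).2.1 p.1) p.2
  exact h

private theorem mu_scl (hTrm : S7Trm) {r s : ℕ} (k a b c d : ℤ) (hk : ¬ 7 ∣ k) (ha : ¬ 7 ∣ a)
    (hd : ¬ 7 ∣ d) (p : Pq r s) : mu (k * a) (k * b) (k * c) (k * d) p = mu a b c d p := by
  have h := congrFun (congrFun ((hTrm (Pq r s) r s (fun x y => (x, y))).2.2 k a b c d
    hk ha hd) p.1) p.2
  exact h

private theorem mu_scl1 (hTrm : S7Trm) {r s : ℕ} (k : ℤ) (hk : ¬ 7 ∣ k) (p : Pq r s) :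
    mu k 0 0 k p = p := by
  have h := mu_scl hTrm k 1 0 0 1 hk (by norm_num) (by norm_num) p
  rw [mul_one, mul_zero] at h
  rw [h, mu_one hTrm]

private theorem mu_inv (hTrm : S7Trm) {r s : ℕ} {a b c d : ℤ} (h1 : ¬ 7 ∣ a) (h2 : ¬ 7 ∣ d)
    (h : ¬ 7 ∣ a * d - 7 * b * c) (p : Pq r s) : mu d (-b) (-c) a (mu a b c d p) = p := by
  rw [mu_mul hTrm h1 h2 h2 h1]
  have e1 : a * d + 7 * b * -c = a * d - 7 * b * c := by ring
  have e2 : a * -b + b * a = 0 := by ring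
  have e3 : c * d + d * -c = 0 := by ring
  have e4 : 7 * c * -b + d * a = a * d - 7 * b * c := by ring
  rw [e1, e2, e3, e4, mu_scl1 hTrm _ h]

private theorem mu_bij (hTrm : S7Trm) {r s : ℕ} {a b c d : ℤ} (h1 : ¬ 7 ∣ a) (h2 : ¬ 7 ∣ d)
    (h : ¬ 7 ∣ a * d - 7 * b * c) :
    Function.Bijective (mu a b c d : Pq r s → Pq r s) := by
  refine Function.bijective_iff_has_inverse.2 ⟨mu d (-b) (-c) a, fun p => mu_inv hTrm h1 h2 h p,
    fun p => ?_⟩
  have := mu_inv hTrm (r := r) (s := s) (a := d) (b := -b) (c := -c) (d := a) h2 h1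
    (by intro h'; apply h; have e : a * d - 7 * b * c = d * a - 7 * -b * -c := by ring
        rw [e]; exact h') p
  rw [neg_neg, neg_neg] at this
  exact this

private instance fin_pt (r s : ℕ) : Fintype (Pq r s) := by
  have : NeZero (7 ^ r) := ⟨by positivity⟩
  have : NeZero (7 ^ s) := ⟨by positivity⟩
  infer_instance

private def mT {r s : ℕ} : Pq r s → Pq r s := mu 1 1 0 1
private def mr {r s : ℕ} : Pq r s → Pq r s := mu 6 (-1) 3 (-3)
private def mb {r s : ℕ} : Pq r s → Pq r s := mu 9 (-4) 3 (-9)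
private def ma {r s : ℕ} : Pq r s → Pq r s := mu 12 (-7) 3 (-12)
private def mt {r s : ℕ} : Pq r s → Pq r s := mu 18 (-13) 3 (-15)
private def mri {r s : ℕ} : Pq r s → Pq r s := mu (-3) 1 (-3) 6
private def mti {r s : ℕ} : Pq r s → Pq r s := mu (-15) 13 (-3) 18
private def mB {r s : ℕ} : Pq r s → Pq r s := mu 1 0 3 1

private theorem bT (hTrm : S7Trm) {r s : ℕ} : Function.Bijective (mT : Pq r s → Pq r s) :=
  mu_bij hTrm (by norm_num) (by norm_num) (by norm_num)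
private theorem br (hTrm : S7Trm) {r s : ℕ} : Function.Bijective (mr : Pq r s → Pq r s) :=
  mu_bij hTrm (by norm_num) (by norm_num) (by norm_num)
private theorem bb (hTrm : S7Trm) {r s : ℕ} : Function.Bijective (mb : Pq r s → Pq r s) :=
  mu_bij hTrm (by norm_num) (by norm_num) (by norm_num)
private theorem ba (hTrm : S7Trm) {r s : ℕ} : Function.Bijective (ma : Pq r s → Pq r s) :=
  mu_bij hTrm (by norm_num) (by norm_num) (by norm_num)
private theorem bt (hTrm : S7Trm) {r s : ℕ} : Function.Bijective (mt : Pq r s → Pq r s) :=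
  mu_bij hTrm (by norm_num) (by norm_num) (by norm_num)

private theorem mrri (hTrm : S7Trm) {r s : ℕ} (p : Pq r s) : mr (mri p) = p := by
  have h := mu_inv hTrm (a := -3) (b := 1) (c := -3) (d := 6) (by norm_num) (by norm_num)
    (by norm_num) p
  rw [neg_neg] at h
  exact h

private theorem mtti (hTrm : S7Trm) {r s : ℕ} (p : Pq r s) : mt (mti p) = p := by
  have h := mu_inv hTrm (a := -15) (b := 13) (c := -3) (d := 18) (by norm_num) (by norm_num)
    (by norm_num) p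
  rw [neg_neg] at h
  exact h

private theorem mBT (hTrm : S7Trm) {r s : ℕ} (p : Pq r s) :
    mT (mti (ma (mb (mri p)))) = mB p := by
  have h := mu_scl hTrm 9 1 0 3 1 (by norm_num) (by norm_num) (by norm_num) p
  unfold mB mT mti ma mb mri
  rw [mu_mul hTrm (by norm_num) (by norm_num) (by norm_num) (by norm_num),
    mu_mul hTrm (by norm_num) (by norm_num) (by norm_num) (by norm_num),
    mu_mul hTrm (by norm_num) (by norm_num) (by norm_num) (by norm_num),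
    mu_mul hTrm (by norm_num) (by norm_num) (by norm_num) (by norm_num), ← h]
  norm_num

/-- the defect of the equation -/
private def cob (r s : ℕ) : (Fin 5 → Pq r s → ℤ) →+ (Pq r s → ℤ) where
  toFun H := fun p => H 0 p - H 0 (mT p) - (H 1 p - H 1 (mr p)) - (H 2 p - H 2 (mb p)) -
    (H 3 p - H 3 (ma p)) - (H 4 p - H 4 (mt p))
  map_zero' := by funext p; simp
  map_add' H K := by funext p; simp only [Pi.add_apply]; ring

private noncomputable def dlt {r s : ℕ} (p : Pq r s) : Pq r s → ℤ := by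
  classical exact Pi.single p 1

private theorem dlt_app {r s : ℕ} (p q : Pq r s) [Decidable (q = p)] :
    dlt p q = if q = p then 1 else 0 := by
  classical
  unfold dlt
  rw [Pi.single_apply]
  congr

private def Eqp {r s : ℕ} (p q : Pq r s) : Prop := dlt p - dlt q ∈ (cob r s).range

private theorem Eqp.rfl' {r s : ℕ} (p : Pq r s) : Eqp p p := by
  unfold Eqp; rw [sub_self]; exact zero_mem _

private theorem Eqp.sym {r s : ℕ} {p q : Pq r s} (h : Eqp p q) : Eqp q p := by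
  unfold Eqp at *; have := neg_mem h; rwa [neg_sub] at this

private theorem Eqp.trs {r s : ℕ} {p q t : Pq r s} (h : Eqp p q) (h' : Eqp q t) : Eqp p t := by
  unfold Eqp at *; have := add_mem h h'; rwa [sub_add_sub_cancel] at this

private theorem dlt_inj {r s : ℕ} {f : Pq r s → Pq r s} (hf : Function.Injective f)
    (p q : Pq r s) : dlt (f p) (f q) = dlt p q := by
  classical
  rw [dlt_app, dlt_app]
  simp [hf.eq_iff]

private theorem eT (hTrm : S7Trm) {r s : ℕ} (p : Pq r s) : Eqp (mT p) p := by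
  refine ⟨![dlt (mT p), 0, 0, 0, 0], ?_⟩
  funext q
  simp [cob, dlt_inj (bT hTrm).1 p q]

private theorem er (hTrm : S7Trm) {r s : ℕ} (p : Pq r s) : Eqp (mr p) p := by
  refine ⟨![0, -dlt (mr p), 0, 0, 0], ?_⟩
  funext q
  simp [cob, dlt_inj (br hTrm).1 p q]
  ring

private theorem eb (hTrm : S7Trm) {r s : ℕ} (p : Pq r s) : Eqp (mb p) p := by
  refine ⟨![0, 0, -dlt (mb p), 0, 0], ?_⟩
  funext q
  simp [cob, dlt_inj (bb hTrm).1 p q]
  ring

private theorem ea (hTrm : S7Trm) {r s : ℕ} (p : Pq r s) : Eqp (ma p) p := by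
  refine ⟨![0, 0, 0, -dlt (ma p), 0], ?_⟩
  funext q
  simp [cob, dlt_inj (ba hTrm).1 p q]
  ring

private theorem et (hTrm : S7Trm) {r s : ℕ} (p : Pq r s) : Eqp (mt p) p := by
  refine ⟨![0, 0, 0, 0, -dlt (mt p)], ?_⟩
  funext q
  simp [cob, dlt_inj (bt hTrm).1 p q]
  ring

private theorem eri (hTrm : S7Trm) {r s : ℕ} (p : Pq r s) : Eqp (mri p) p := by
  have h := er hTrm (mri p)
  rw [mrri hTrm] at h
  exact h.sym

private theorem eti (hTrm : S7Trm) {r s : ℕ} (p : Pq r s) : Eqp (mti p) p := by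
  have h := et hTrm (mti p)
  rw [mtti hTrm] at h
  exact h.sym

private theorem eB (hTrm : S7Trm) {r s : ℕ} (p : Pq r s) : Eqp (mB p) p := by
  rw [← mBT hTrm]
  exact (eT hTrm _).trs ((eti hTrm _).trs ((ea hTrm _).trs ((eb hTrm _).trs (eri hTrm p))))

private theorem eqp_y0 (hTrm : S7Trm) {r s : ℕ} : ∀ (n : ℕ),
    Eqp ((0, ((3 * n : ℕ) : ZMod (7 ^ s))) : Pq r s) (0, 0) := by
  intro n
  induction n with
  | zero => rw [mul_zero, Nat.cast_zero]; exact Eqp.rfl' _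
  | succ n ih =>
    have h := eB hTrm ((0, ((3 * n : ℕ) : ZMod (7 ^ s))) : Pq r s)
    have e : mB ((0, ((3 * n : ℕ) : ZMod (7 ^ s))) : Pq r s) =
        (0, ((3 * (n + 1) : ℕ) : ZMod (7 ^ s))) := by
      have h1 : ((1 : ZMod (7 ^ s)))⁻¹ = 1 := ZMod.inv_eq_of_mul_eq_one _ _ _ (by ring)
      simp [mB, mu, tr7, h1]
      ring
    rw [e] at h
    exact h.trs ih

private theorem eqp_y (hTrm : S7Trm) {r s : ℕ} (y : ZMod (7 ^ s)) :
    Eqp ((0, y) : Pq r s) (0, 0) := by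
  have : NeZero (7 ^ s) := ⟨by positivity⟩
  have hu : IsUnit ((3 : ℕ) : ZMod (7 ^ s)) := by
    rw [ZMod.isUnit_iff_coprime]
    exact Nat.Coprime.pow_right s (by norm_num)
  obtain ⟨u, hu⟩ := hu
  have h := eqp_y0 hTrm (r := r) (s := s) (((u⁻¹ : (ZMod (7 ^ s))ˣ) : ZMod (7 ^ s)) * y).val
  have e : ((3 * (((u⁻¹ : (ZMod (7 ^ s))ˣ) : ZMod (7 ^ s)) * y).val : ℕ) : ZMod (7 ^ s)) = y := by
    rw [Nat.cast_mul, ZMod.natCast_zmod_val, ← hu, ← mul_assoc, Units.mul_inv, one_mul]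
  rw [e] at h
  exact h

private theorem eqp_x (hTrm : S7Trm) {r s : ℕ} : ∀ (n : ℕ) (x : ZMod (7 ^ r)) (y : ZMod (7 ^ s)),
    x + n = 0 → Eqp ((x, y) : Pq r s) (0, 0) := by
  intro n
  induction n with
  | zero =>
    intro x y h
    rw [Nat.cast_zero, add_zero] at h
    subst h
    exact eqp_y hTrm (r := r) (s := s) y
  | succ n ih =>
    intro x y h
    have h1 := eT hTrm ((x, y) : Pq r s)
    refine h1.sym.trs ?_
    have h2 : (mT ((x, y) : Pq r s)).1 = x + 1 := by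
      have h1 : ((1 : ZMod (7 ^ r)))⁻¹ = 1 := ZMod.inv_eq_of_mul_eq_one _ _ _ (by ring)
      simp [mT, mu, tr7, h1, add_comm]
    have h3 : mT ((x, y) : Pq r s) = (x + 1, (mT ((x, y) : Pq r s)).2) := by
      rw [← h2]
    rw [h3]
    apply ih
    rw [← h]
    push_cast
    ring

private theorem eqp_all (hTrm : S7Trm) {r s : ℕ} (p : Pq r s) : Eqp p (0, 0) := by
  have : NeZero (7 ^ r) := ⟨by positivity⟩
  exact eqp_x hTrm (-p.1).val p.1 p.2 (by rw [ZMod.natCast_zmod_val]; ring)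

private theorem mem_of_sum (hTrm : S7Trm) {r s : ℕ} (E : Pq r s → ℤ) (hE : ∑ p, E p = 0) :
    E ∈ (cob r s).range := by
  classical
  have h1 : E = ∑ p, E p • (dlt p - dlt (0, 0)) := by
    have h2 : ∑ p, E p • (dlt p - dlt ((0, 0) : Pq r s)) =
        ∑ p, E p • dlt p - (∑ p, E p) • dlt ((0, 0) : Pq r s) := by
      rw [Finset.sum_smul, ← Finset.sum_sub_distrib]
      exact Finset.sum_congr rfl fun p _ => smul_sub _ _ _
    rw [h2, hE, zero_smul, sub_zero]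
    funext q
    rw [Finset.sum_apply]
    simp [dlt_app]
  rw [h1]
  exact sum_mem fun p _ => zsmul_mem (eqp_all hTrm p) _

private theorem sum_cob (hTrm : S7Trm) {r s : ℕ} (H : Fin 5 → Pq r s → ℤ) :
    ∑ p, cob r s H p = 0 := by
  have h0 := (bT hTrm (r := r) (s := s)).sum_comp (H 0)
  have h1 := (br hTrm (r := r) (s := s)).sum_comp (H 1)
  have h2 := (bb hTrm (r := r) (s := s)).sum_comp (H 2)
  have h3 := (ba hTrm (r := r) (s := s)).sum_comp (H 3)
  have h4 := (bt hTrm (r := r) (s := s)).sum_comp (H 4)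
  show ∑ p, (H 0 p - H 0 (mT p) - (H 1 p - H 1 (mr p)) - (H 2 p - H 2 (mb p)) -
    (H 3 p - H 3 (ma p)) - (H 4 p - H 4 (mt p))) = 0
  simp only [Finset.sum_sub_distrib]
  rw [h0, h1, h2, h3, h4]
  ring

theorem hLifp (hm : S7Trm) (hq : TSol) : TLifp := by
  intro r s f hf
  obtain ⟨u, hu, hus⟩ := hq.2 r s f hf
  let L : Fin 5 → Pq r s → ℤ := fun i p => ((u i p.1 p.2).val : ℤ)
  have hL : ∀ i p, ((L i p : ℤ) : ZMod 7) = u i p.1 p.2 := by
    intro i p
    show ((((u i p.1 p.2).val : ℤ)) : ZMod 7) = _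
    push_cast
    exact ZMod.natCast_zmod_val _
  have h7 : (7 : ZMod 7) = 0 := by decide
  have h3 : ∀ p, (7 : ℤ) ∣ cob r s L p := by
    intro p
    apply (ZMod.intCast_zmod_eq_zero_iff_dvd _ 7).1
    show ((L 0 p - L 0 (mT p) - (L 1 p - L 1 (mr p)) - (L 2 p - L 2 (mb p)) -
      (L 3 p - L 3 (ma p)) - (L 4 p - L 4 (mt p)) : ℤ) : ZMod 7) = 0
    push_cast
    rw [hL, hL, hL, hL, hL, hL, hL, hL, hL, hL]
    exact hu p.1 p.2
  choose D hD using h3
  have hs : ∑ p, D p = 0 := by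
    have h := sum_cob hm L
    rw [Finset.sum_congr rfl fun p _ => hD p, ← Finset.mul_sum] at h
    omega
  obtain ⟨H, hH⟩ := mem_of_sum hm D hs
  let F : Fin 5 → Pq r s → ℤ := fun i p => L i p - 7 * H i p
  have hF : ∀ p, F 0 p - F 0 (mT p) - (F 1 p - F 1 (mr p)) - (F 2 p - F 2 (mb p)) -
    (F 3 p - F 3 (ma p)) - (F 4 p - F 4 (mt p)) = 0 := by
    intro p
    have h1 := hD p
    have h2 := congrFun hH p
    have e1 : cob r s L p = L 0 p - L 0 (mT p) - (L 1 p - L 1 (mr p)) - (L 2 p - L 2 (mb p)) -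
      (L 3 p - L 3 (ma p)) - (L 4 p - L 4 (mt p)) := rfl
    have e2 : cob r s H p = H 0 p - H 0 (mT p) - (H 1 p - H 1 (mr p)) - (H 2 p - H 2 (mb p)) -
      (H 3 p - H 3 (ma p)) - (H 4 p - H 4 (mt p)) := rfl
    rw [e1] at h1
    rw [e2] at h2
    show (L 0 p - 7 * H 0 p) - (L 0 (mT p) - 7 * H 0 (mT p)) -
      ((L 1 p - 7 * H 1 p) - (L 1 (mr p) - 7 * H 1 (mr p))) -
      ((L 2 p - 7 * H 2 p) - (L 2 (mb p) - 7 * H 2 (mb p))) -
      ((L 3 p - 7 * H 3 p) - (L 3 (ma p) - 7 * H 3 (ma p))) -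
      ((L 4 p - 7 * H 4 p) - (L 4 (mt p) - 7 * H 4 (mt p))) = 0
    linear_combination h1 - 7 * h2
  have hFc : ∀ i p, ((F i p : ℤ) : ZMod 7) = u i p.1 p.2 := by
    intro i p
    show ((L i p - 7 * H i p : ℤ) : ZMod 7) = _
    push_cast
    rw [hL, h7, zero_mul, sub_zero]
  let W : Fin 5 → ZMod (7 ^ r) → ZMod (7 ^ s) → ℤ := fun i x y => F i (x, y)
  have hW : ∀ x y, DfK W x y = 0 := fun x y => hF (x, y)
  refine ⟨solK W, hq.1 ℤ _ r s W hW, ?_⟩
  intro i x y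
  have h := congrFun (congrFun (hus i) x) y
  rw [← h]
  have c0 : ((W 0 x y : ℤ) : ZMod 7) = u 0 x y := hFc 0 (x, y)
  have c1 : ((W 1 x y : ℤ) : ZMod 7) = u 1 x y := hFc 1 (x, y)
  have c2 : ((W 2 x y : ℤ) : ZMod 7) = u 2 x y := hFc 2 (x, y)
  have c3 : ((W 3 x y : ℤ) : ZMod 7) = u 3 x y := hFc 3 (x, y)
  have d1 : ((tr7 6 (-1) 3 (-3) (W 1) x y : ℤ) : ZMod 7) = tr7 6 (-1) 3 (-3) (u 1) x y :=
    hFc 1 (mr (x, y))
  have d2 : ((tr7 9 (-4) 3 (-9) (W 2) x y : ℤ) : ZMod 7) = tr7 9 (-4) 3 (-9) (u 2) x y :=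
    hFc 2 (mb (x, y))
  have d3 : ((tr7 12 (-7) 3 (-12) (W 3) x y : ℤ) : ZMod 7) = tr7 12 (-7) 3 (-12) (u 3) x y :=
    hFc 3 (ma (x, y))
  unfold solK
  split_ifs <;> push_cast <;> simp only [c0, c1, c2, c3, d1, d2, d3]

end Pool.Agent.Helper29.TK7.LifpM

namespace Pool.Agent.Helper29.TK7

open Pool.Agent.Helper84.S7 (S7Trm)
open Pool.Agent.Helper14.TK7 (TSol TLifp)

theorem hLifp (ht : S7Trm) (hq : TSol) : TLifp := LifpM.hLifp ht hq

end Pool.Agent.Helper29.TK7
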